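import Mathlib
import Pool.Agent.LeoK.CountStmts

/-!
# LEOK, module EXC: few m have a form with a short vector
-/

set_option autoImplicit false

open NumberField IsDedekindDomain Module MeasureTheory Filter Topology

namespace Pool.Agent.LeoK.H13

theorem exc (hSMV : SmvStmt) (hNRF : NrfStmt) (hCRU : CruStmt) : ExcStmt := by
  classical
  intro k _ _ hk Φ
  obtain ⟨N₀, A₁, hN₀, hA₁, hsmv⟩ := hSMV k hk
  obtain ⟨R, hR⟩ : ∃ R : ℝ, 0 < R ∧ ∀ x ∈ ZSpan.fundamentalDomain Φ.B, ∀ s, |x s| ≤ R := by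
    have hb := ZSpan.fundamentalDomain_isBounded Φ.B
    obtain ⟨R, hR⟩ := hb.exists_norm_le
    refine ⟨max R 1, by positivity, fun x hx s => ?_⟩
    have h1 : ‖x s‖ ≤ ‖x‖ := norm_le_pi_norm x s
    have h2 := hR x hx
    rw [← Real.norm_eq_abs]
    exact (h1.trans h2).trans (le_max_left _ _)
  obtain ⟨C, hC, hcru⟩ := hCRU k hk Φ R A₁ hR.1 hA₁
  have hN : (0 : ℝ) < (N₀ : ℝ) := by exact_mod_cast hN₀
  refine ⟨C * A₁ * ((N₀ : ℝ) ^ 6) ^ Fintype.card (Sg k), by positivity, fun δ Z hδ hδ1 hZ => ?_⟩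
  set Z' : ℝ := ((N₀ : ℝ) ^ 6) ^ Fintype.card (Sg k) * Z with hZ'
  have hN1 : (1 : ℝ) ≤ (N₀ : ℝ) ^ 6 := by
    have : (1 : ℝ) ≤ (N₀ : ℝ) := by exact_mod_cast hN₀
    exact one_le_pow₀ this
  have hZ'1 : 1 ≤ Z' := by
    have h1 : (1 : ℝ) ≤ ((N₀ : ℝ) ^ 6) ^ Fintype.card (Sg k) := one_le_pow₀ hN1
    calc (1 : ℝ) = 1 * 1 := by ring
      _ ≤ _ := mul_le_mul h1 hZ zero_le_one (by positivity)
  obtain ⟨hfin, hcard⟩ := hcru Z' (A₁ * δ) hZ'1 (by positivity) (by nlinarith)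
  set V : Set (Q4 (𝓞 k)) := {v : Q4 (𝓞 k) | Reg Φ {x | ∀ s, |x s| ≤ R} Z' (A₁ * δ) v} with hV
  set M : Set (𝓞 k) := {m : 𝓞 k | lam (m : k) ∈ Φ.F ∧ ∏ s : Sg k, s (m : k) ≤ Z ∧
      ∃ (v : Q4 (𝓞 k)) (X Y : 𝓞 k), qM v = m ∧ Irr (v 0) (v 1) (v 2) (v 3) ∧
        (∀ s : Sg k, 0 < s ((qP v : 𝓞 k) : k)) ∧ (X ≠ 0 ∨ Y ≠ 0) ∧
        ∏ s, hx v X Y s < δ} with hM
  have key : ∀ m ∈ M, ∃ w ∈ V, qM w = (N₀ : 𝓞 k) ^ 6 * m := by
    rintro m ⟨hmF, hmZ, v, X, Y, rfl, hirr, hP, hXY, hlt⟩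
    have hMpos : ∀ s : Sg k, 0 < s ((qM v : 𝓞 k) : k) := fun s => Φ.pos _ hmF s
    obtain ⟨w, hw1, hw2, hw3, hw4⟩ := hsmv v X Y hirr hP hMpos hXY
    have hcast : ((((N₀ : 𝓞 k) ^ 6 * qM v : 𝓞 k)) : k) = (N₀ : k) ^ 6 * ((qM v : 𝓞 k) : k) := by
      push_cast
      rfl
    have hsM : ∀ s : Sg k, s ((((N₀ : 𝓞 k) ^ 6 * qM v : 𝓞 k)) : k) =
        (N₀ : ℝ) ^ 6 * s ((qM v : 𝓞 k) : k) := by
      intro s
      rw [hcast, map_mul, map_pow, map_natCast]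
    have hwMpos : ∀ s : Sg k, 0 < s ((qM w : 𝓞 k) : k) := by
      intro s
      rw [hw1, hsM]
      exact mul_pos (by positivity) (hMpos s)
    obtain ⟨u, hu1, hu2, hu3, hu4, hu5⟩ := hNRF k hk Φ w hw2 hw3 hwMpos
    have huM : qM u = (N₀ : 𝓞 k) ^ 6 * qM v := hu1.trans hw1
    refine ⟨u, ⟨hu2, hR.2 _ hu3, ?_, hu4, ?_, ?_⟩, huM⟩
    · have : lam ((qM u : 𝓞 k) : k) = ((N₀ : ℝ) ^ 6) • lam ((qM v : 𝓞 k) : k) := by
        funext s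
        simp only [lam, Pi.smul_apply, smul_eq_mul]
        rw [huM, hsM]
      rw [this]
      exact Φ.scal _ hmF _ (by positivity)
    · rw [huM]
      simp only [hsM]
      rw [Finset.prod_mul_distrib, Finset.prod_const, Finset.card_univ, hZ']
      exact mul_le_mul_of_nonneg_left hmZ (by positivity)
    · rw [hu5]
      exact hw4.trans (mul_le_mul_of_nonneg_left hlt.le hA₁.le)
  choose! g hg1 hg2 using key
  have hinj : Set.InjOn g M := by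
    intro m hm m' hm' h
    have h1 := hg2 m hm
    have h2 := hg2 m' hm'
    rw [h, h2] at h1
    have hne : (N₀ : 𝓞 k) ^ 6 ≠ 0 := pow_ne_zero _ (by exact_mod_cast hN₀.ne')
    exact (mul_left_cancel₀ hne h1).symm
  have h1 : M.ncard ≤ V.ncard := Set.ncard_le_ncard_of_injOn g hg1 hinj hfin
  have h2 : (M.ncard : ℝ) ≤ (V.ncard : ℝ) := by exact_mod_cast h1
  refine h2.trans (hcard.trans (le_of_eq ?_))
  rw [hZ']
  ring

end Pool.Agent.LeoK.H13
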