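import Mathlib
import Pool.Agent.LeoK.CountStmts

/-!
# LEOK, module LOW: many good marks
-/

set_option autoImplicit false

open NumberField IsDedekindDomain Module MeasureTheory Filter Topology

namespace Pool.Agent.LeoK.H13

/-- A finite set covered by countably many small sets is small. -/
theorem ncard_cover {α ι : Type} (W : Set α) (hW : W.Finite) (P : ι → Set α)
    (hP : ∀ i, (P i).Finite) (f : ι → ℝ) (A r : ℝ) (hA : 0 ≤ A) (Q : Finset ι)
    (hQ : ∀ t : Finset ι, Disjoint t Q → ‖∑ i ∈ t, f i‖ < r)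
    (hc : ∀ i, ((P i).ncard : ℝ) ≤ A * f i)
    (hcov : ∀ x ∈ W, ∃ i, i ∉ Q ∧ x ∈ P i) : (W.ncard : ℝ) ≤ A * r := by
  classical
  choose g hg1 hg2 using hcov
  set t : Finset ι := hW.toFinset.attach.image
    (fun x => g x.1 (hW.mem_toFinset.1 x.2)) with ht
  have hdis : Disjoint t Q := by
    rw [Finset.disjoint_left]
    intro i hi
    rw [ht, Finset.mem_image] at hi
    obtain ⟨x, -, rfl⟩ := hi
    exact hg1 x.1 (hW.mem_toFinset.1 x.2)
  have hsub : W ⊆ ⋃ i ∈ t, P i := by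
    intro x hx
    simp only [Set.mem_iUnion]
    refine ⟨g x hx, ?_, hg2 x hx⟩
    rw [ht, Finset.mem_image]
    exact ⟨⟨x, hW.mem_toFinset.2 hx⟩, Finset.mem_attach _ _, rfl⟩
  have h1 : (W.ncard : ℝ) ≤ ∑ i ∈ t, ((P i).ncard : ℝ) := by
    have h2 : W.ncard ≤ ∑ i ∈ t, (P i).ncard := by
      have h3 : W.ncard ≤ (⋃ i ∈ t, P i).ncard :=
        Set.ncard_le_ncard hsub (t.finite_toSet.biUnion (fun i _ => hP i))
      exact h3.trans (Finset.set_ncard_biUnion_le t P)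
    exact_mod_cast h2
  have h4 : ∑ i ∈ t, ((P i).ncard : ℝ) ≤ A * ∑ i ∈ t, f i := by
    rw [Finset.mul_sum]
    exact Finset.sum_le_sum (fun i _ => hc i)
  have h5 : ∑ i ∈ t, f i ≤ r := (le_abs_self _).trans (hQ t hdis).le
  exact h1.trans (h4.trans (mul_le_mul_of_nonneg_left h5 hA))

/-- Two elements which are not coprime lie in a prime. -/
theorem exists_prime {k : Type} [Field k] [NumberField k] (X Y : 𝓞 k) (h0 : X ≠ 0 ∨ Y ≠ 0)
    (h : ¬ IsCoprime X Y) : ∃ q : HeightOneSpectrum (𝓞 k), X ∈ q.asIdeal ∧ Y ∈ q.asIdeal := by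
  have h1 : Ideal.span {X, Y} ≠ ⊤ := by
    intro h2
    apply h
    have h3 : (1 : 𝓞 k) ∈ Ideal.span {X, Y} := by rw [h2]; trivial
    obtain ⟨a, b, hab⟩ := Ideal.mem_span_pair.1 h3
    exact ⟨a, b, hab⟩
  obtain ⟨M, hM, hle⟩ := Ideal.exists_le_maximal _ h1
  have hX : X ∈ M := hle (Ideal.subset_span (by simp))
  have hY : Y ∈ M := hle (Ideal.subset_span (by simp))
  have hne : M ≠ ⊥ := by
    rintro rfl
    rcases h0 with h0 | h0
    · exact h0 (by simpa using hX)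
    · exact h0 (by simpa using hY)
  exact ⟨⟨M, hM.isPrime, hne⟩, hX, hY⟩

theorem low (hLWA : LwaStmt) (hLWT : LwtStmt) (hPIK : PikStmt) : LowStmt := by
  classical
  intro k _ _ hk Φ δ ε hδ hε
  obtain ⟨A, hA, hT⟩ := hLWT k hk Φ δ hδ
  obtain ⟨hsum, hPk, -, -, hQle, -⟩ := hPIK k
  -- finiteness
  have hfin : ∀ (T η : ℝ) (v : Q4 (𝓞 k)), 0 < T → Lrg δ v → (Mks Φ T η v).Finite := by
    intro T η v hT0 hv
    refine (hT v hv T hT0).1.subset ?_
    rintro p ⟨-, h2, h3, -⟩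
    exact ⟨h2, h3⟩
  -- the degenerate cases
  by_cases hdeg : 1 < ε ∨ Φ.vF = 0 ∨ Φ.D = 0
  · refine ⟨1, 1, one_pos, one_pos, le_rfl, fun v hv => ⟨hfin 1 1 v one_pos hv, ?_⟩⟩
    have h0 : (1 - ε) * (Pk k * (2 * Real.pi) ^ finrank ℚ k * Φ.vF * 1 / Φ.D ^ 2) ≤ 0 := by
      rcases hdeg with h | h | h
      · apply mul_nonpos_of_nonpos_of_nonneg (by linarith)
        have hv : 0 ≤ Φ.vF := ENNReal.toReal_nonneg
        have hpi : 0 < (2 * Real.pi) ^ finrank ℚ k := by positivity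
        have := mul_nonneg (mul_nonneg hPk.le hpi.le) hv
        positivity
      · rw [h]; simp
      · rw [h]; simp
    exact h0.trans (Nat.cast_nonneg _)
  push Not at hdeg
  obtain ⟨hε1, hvF, hD⟩ := hdeg
  have hvF' : 0 < Φ.vF := lt_of_le_of_ne ENNReal.toReal_nonneg (Ne.symm hvF)
  have hD' : 0 < Φ.D := lt_of_le_of_ne ENNReal.toReal_nonneg (Ne.symm hD)
  set c0 : ℝ := (2 * Real.pi) ^ finrank ℚ k * Φ.vF with hc0
  have hc0' : 0 < c0 := by rw [hc0]; positivity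
  obtain ⟨η0, hη0, hLA⟩ := hLWA k hk Φ (ε * c0 / 2) (by positivity)
  -- the set of primes
  obtain ⟨Q, hQ⟩ := (summable_iff_vanishing_norm.1 hsum) (ε / 2 * Pk k * c0 / Φ.D ^ 2 / A)
    (by positivity)
  obtain ⟨T, hT0, hLA'⟩ := hLA δ Q hδ
  refine ⟨T, min η0 1, hT0, lt_min hη0 one_pos, min_le_right _ _, fun v hv =>
    ⟨hfin T _ v hT0 hv, ?_⟩⟩
  have hG := hLA' T le_rfl v hv
  set G : Set (𝓞 k × 𝓞 k) := {p : 𝓞 k × 𝓞 k | (∀ q ∈ Q, ¬ (p.1 ∈ q.asIdeal ∧ p.2 ∈ q.asIdeal)) ∧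
        hx v p.1 p.2 ∈ Φ.F ∧ ∏ s, hx v p.1 p.2 s ≤ T ∧
        ∀ s : Sg k, η0 * s ((qM v : 𝓞 k) : k) ^ (1 / 4 : ℝ) ≤
          |s ((val v p.1 p.2 : 𝓞 k) : k)|} with hGdef
  have hGfin : G.Finite := by
    refine (hT v hv T hT0).1.subset ?_
    rintro p ⟨-, h2, h3, -⟩
    exact ⟨h2, h3⟩
  set W : Set (𝓞 k × 𝓞 k) := {p | p ∈ G ∧ ¬ IsCoprime p.1 p.2} with hWdef
  have hWfin : W.Finite := hGfin.subset (fun p hp => hp.1)
  have hWc : (W.ncard : ℝ) ≤ A * T * (ε / 2 * Pk k * c0 / Φ.D ^ 2 / A) := by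
    refine ncard_cover W hWfin (fun q : HeightOneSpectrum (𝓞 k) =>
      {p : 𝓞 k × 𝓞 k | p.1 ∈ q.asIdeal ∧ p.2 ∈ q.asIdeal ∧ hx v p.1 p.2 ∈ Φ.F ∧
        ∏ s, hx v p.1 p.2 s ≤ T}) ?_ (fun p => 1 / np p ^ 2) (A * T) _ (by positivity) Q hQ ?_ ?_
    · intro q
      refine (hT v hv T hT0).1.subset ?_
      rintro p ⟨-, -, h2, h3⟩
      exact ⟨h2, h3⟩
    · intro q
      have := (hT v hv T hT0).2 q
      calc _ ≤ A * T / np q ^ 2 := this
        _ = A * T * (1 / np q ^ 2) := by ring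
    · rintro p ⟨⟨h1, h2, h3, h4⟩, hnc⟩
      have h0 : p.1 ≠ 0 ∨ p.2 ≠ 0 := by
        by_contra hcon
        push Not at hcon
        have hs : ∀ s : Sg k, 0 < hx v p.1 p.2 s := Φ.pos _ h2
        obtain ⟨s⟩ : Nonempty (Sg k) := by
          by_contra hemp
          rw [not_nonempty_iff] at hemp
          have hz : ∀ x y : Sg k → ℝ, x = y := fun x y => by
            funext s; exact (hemp.false s).elim
          have h5 := Φ.B.linearIndependent
          have h6 : finrank ℝ (Sg k → ℝ) = 0 := by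
            rw [finrank_pi]; simp
          have h7 : IsEmpty Φ.κ := by
            have := Module.finrank_eq_card_basis Φ.B
            rw [h6] at this
            exact Fintype.card_eq_zero_iff.1 this.symm
          have h8 : Subsingleton (𝓞 k) := by
            have := Φ.om.repr.toEquiv
            exact this.subsingleton
          exact not_subsingleton (𝓞 k) h8
        have := hs s
        rw [hcon.1, hcon.2] at this
        simp [hx, hes] at this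
      obtain ⟨q, hq1, hq2⟩ := exists_prime p.1 p.2 h0 hnc
      refine ⟨q, fun hqQ => h1 q hqQ ⟨hq1, hq2⟩, hq1, hq2, h2, h3⟩
  -- the good set minus the bad set consists of marks
  have hsub : G \ W ⊆ Mks Φ T (min η0 1) v := by
    rintro p ⟨⟨h1, h2, h3, h4⟩, hpW⟩
    have hco : IsCoprime p.1 p.2 := by
      by_contra hcon
      exact hpW ⟨⟨h1, h2, h3, h4⟩, hcon⟩
    refine ⟨hco, h2, h3, fun s => ?_⟩
    refine le_trans ?_ (h4 s)
    exact mul_le_mul_of_nonneg_right (min_le_left _ _) (Real.rpow_nonneg (hv.posM s).le _)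
  have hcard : (G.ncard : ℝ) ≤ ((Mks Φ T (min η0 1) v).ncard : ℝ) + (W.ncard : ℝ) := by
    have h1 : G.ncard ≤ (G \ W).ncard + W.ncard := Set.ncard_le_ncard_sdiff_add_ncard G W hWfin
    have h2 : (G \ W).ncard ≤ (Mks Φ T (min η0 1) v).ncard :=
      Set.ncard_le_ncard hsub (hfin T _ v hT0 hv)
    have h3 : G.ncard ≤ (Mks Φ T (min η0 1) v).ncard + W.ncard := by omega
    exact_mod_cast h3
  have hprod : Pk k ≤ ∏ p ∈ Q, (1 - 1 / np p ^ 2) := (hQle Q).1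
  -- arithmetic
  have hA1 : A * T * (ε / 2 * Pk k * c0 / Φ.D ^ 2 / A) = ε / 2 * (Pk k * c0 * T / Φ.D ^ 2) := by
    field_simp
  have h10 : Pk k * (c0 - ε * c0 / 2) * T / Φ.D ^ 2 ≤
      (∏ p ∈ Q, (1 - 1 / np p ^ 2)) * ((2 * Real.pi) ^ finrank ℚ k * Φ.vF - ε * c0 / 2) * T /
        Φ.D ^ 2 := by
    rw [← hc0]
    have h11 : 0 ≤ c0 - ε * c0 / 2 := by nlinarith
    gcongr
  have h12 : Pk k * (c0 - ε * c0 / 2) * T / Φ.D ^ 2 = (1 - ε / 2) * (Pk k * c0 * T / Φ.D ^ 2) := by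
    ring
  have h13 : (1 - ε) * (Pk k * (2 * Real.pi) ^ finrank ℚ k * Φ.vF * T / Φ.D ^ 2) =
      (1 - ε) * (Pk k * c0 * T / Φ.D ^ 2) := by
    rw [hc0]; ring
  rw [h13]
  rw [hA1] at hWc
  linarith

end Pool.Agent.LeoK.H13
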